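import Pool.Agent.Lib.MP_ad5d82_an.h24.F.F8
import Pool.Agent.Lib.MP_ad5d82_an.h24.Eig.EG8
import Pool.Agent.Lib.MP_ad5d82_an.h24.Eig.EG9

set_option autoImplicit false

namespace Pool.MP_ad5d82_an.Wl

open Real Set MeasureTheory Filter Topology
open scoped ContDiff

variable {ι : Type} [Fintype ι] [DecidableEq ι]

private lemma z1_spec (M : Matrix ι ι ℝ) (hM : M.PosDef) :
    ∃ (lam : ι → ℝ) (Q : ι → ι → ℝ), (∀ j, 0 < lam j) ∧
      (∀ j k, ∑ a, Q a j * Q a k = if j = k then 1 else 0) ∧
      (∀ a j, ∑ b, M a b * Q b j = lam j * Q a j) ∧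
      (∀ a b, M a b = ∑ j, lam j * Q a j * Q b j) := by
  set e := hM.1.eigenvectorBasis with he
  set Q : Matrix ι ι ℝ := Matrix.of fun a j => (e j) a with hQ
  have horth : ∀ j k, ∑ a, Q a j * Q a k = if j = k then 1 else 0 := by
    intro j k
    have h1 := orthonormal_iff_ite.1 e.orthonormal j k
    rw [← h1, PiLp.inner_apply]
    refine Finset.sum_congr rfl fun a _ => ?_
    show (e j) a * (e k) a = _
    simp [mul_comm]
  have heig : ∀ a j, ∑ b, M a b * Q b j = hM.1.eigenvalues j * Q a j := by
    intro a j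
    have h1 := congrFun (hM.1.mulVec_eigenvectorBasis j) a
    simp only [Matrix.mulVec, dotProduct, Pi.smul_apply, smul_eq_mul] at h1
    exact h1
  refine ⟨hM.1.eigenvalues, fun a j => Q a j, fun j => hM.eigenvalues_pos j, horth, heig, ?_⟩
  have hQtQ : Q.transpose * Q = 1 := by
    ext j k
    rw [Matrix.mul_apply, Matrix.one_apply]
    exact horth j k
  have hQQt : Q * Q.transpose = 1 := mul_eq_one_comm.1 hQtQ
  have hMQ : M * Q = Q * Matrix.diagonal hM.1.eigenvalues := by
    ext a j
    rw [Matrix.mul_apply, Matrix.mul_diagonal]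
    rw [heig a j, mul_comm]
  have hfin : M = Q * Matrix.diagonal hM.1.eigenvalues * Q.transpose := by
    rw [← hMQ, Matrix.mul_assoc, hQQt, Matrix.mul_one]
  intro a b
  have h1 := congrFun (congrFun hfin a) b
  rw [Matrix.mul_apply] at h1
  rw [h1]
  refine Finset.sum_congr rfl fun j _ => ?_
  rw [Matrix.mul_diagonal, Matrix.transpose_apply]
  ring

/-- positivity of the inverse of a finite type Cartan matrix on the constant vector. -/
private lemma z1_kappa [Nonempty ι] (K : Matrix ι ι ℤ) (hK : Eig.IsFT K) (d : ι → ℝ)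
    (hd : ∀ a, 0 < d a) (hpd : (Matrix.of fun a b => d a * (K a b : ℝ)).PosDef) :
    ∃ κ : ι → ℝ, (∀ a, 0 < κ a) ∧ ∀ a, ∑ b, (K a b : ℝ) * κ b = 1 := by
  set D : Matrix ι ι ℝ := Matrix.of fun a b => d a * (K a b : ℝ) with hD
  have hDab : ∀ a b, D a b = d a * K a b := fun a b => rfl
  set κ : ι → ℝ := D⁻¹.mulVec d with hκ
  have hDκ : D.mulVec κ = d := by
    rw [hκ, Matrix.mulVec_mulVec, Matrix.mul_nonsing_inv D ((Matrix.isUnit_iff_isUnit_det D).1
      hpd.isUnit), Matrix.one_mulVec]
  have hKκ : ∀ a, ∑ b, (K a b : ℝ) * κ b = 1 := by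
    intro a
    have h1 := congrFun hDκ a
    have h2 : D.mulVec κ a = d a * ∑ b, (K a b : ℝ) * κ b := by
      show ∑ b, D a b * κ b = _
      rw [Finset.mul_sum]
      refine Finset.sum_congr rfl fun b _ => ?_
      rw [hDab]
      ring
    rw [h2] at h1
    have h3 := (hd a).ne'
    field_simp at h1
    linarith
  set xm : ι → ℝ := fun a => max (-κ a) 0 with hxm
  set xp : ι → ℝ := fun a => max (κ a) 0 with hxp
  have hsplit : ∀ a, κ a = xp a - xm a := by
    intro a
    simp only [hxm, hxp]
    rcases le_total 0 (κ a) with h | h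
    · rw [max_eq_left h, max_eq_right (by linarith)]
      ring
    · rw [max_eq_right h, max_eq_left (by linarith)]
      ring
  have hxm0 : xm = 0 := by
    by_contra hne
    have hpos := hpd.dotProduct_mulVec_pos hne
    have h1 : star xm ⬝ᵥ D.mulVec xm = ∑ a, ∑ b, xm a * (D a b * xm b) := by
      simp only [dotProduct, Matrix.mulVec, star_trivial]
      exact Finset.sum_congr rfl fun a _ => Finset.mul_sum _ _ _
    have h1' : 0 < ∑ a, ∑ b, xm a * (D a b * xm b) := by
      rw [← h1]
      exact hpos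
    have h2 : ∑ a, xm a * d a = ∑ a, ∑ b, xm a * (D a b * xp b) - ∑ a, ∑ b, xm a * (D a b * xm b) := by
      rw [← Finset.sum_sub_distrib]
      refine Finset.sum_congr rfl fun a _ => ?_
      rw [← Finset.sum_sub_distrib]
      have h3 := congrFun hDκ a
      rw [← h3]
      show xm a * ∑ b, D a b * κ b = _
      rw [Finset.mul_sum]
      refine Finset.sum_congr rfl fun b _ => ?_
      rw [hsplit b]
      ring
    have h3 : ∑ a, ∑ b, xm a * (D a b * xp b) ≤ 0 := by
      refine Finset.sum_nonpos fun a _ => Finset.sum_nonpos fun b _ => ?_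
      have ha : 0 ≤ xm a := le_max_right _ _
      have hb : 0 ≤ xp b := le_max_right _ _
      by_cases hab : a = b
      · subst hab
        have h4 : xm a * xp a = 0 := by
          simp only [hxm, hxp]
          rcases le_total 0 (κ a) with h | h
          · rw [max_eq_right (by linarith : -κ a ≤ 0), zero_mul]
          · rw [max_eq_right h, mul_zero]
        have h5 : xm a * (D a a * xp a) = D a a * (xm a * xp a) := by ring
        rw [h5, h4, mul_zero]
      · have h4 : D a b ≤ 0 := by
          rw [hDab]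
          have h5 : ((K a b : ℤ) : ℝ) ≤ 0 := by exact_mod_cast hK.off a b hab
          exact mul_nonpos_of_nonneg_of_nonpos (hd a).le h5
        have h5 : D a b * xp b ≤ 0 := mul_nonpos_of_nonpos_of_nonneg h4 hb
        exact mul_nonpos_of_nonneg_of_nonpos ha h5
    have h4 : 0 ≤ ∑ a, xm a * d a :=
      Finset.sum_nonneg fun a _ => mul_nonneg (le_max_right _ _) (hd a).le
    linarith
  have hκ0 : ∀ a, 0 ≤ κ a := by
    intro a
    have h1 := congrFun hxm0 a
    simp only [hxm, Pi.zero_apply] at h1
    have h2 := le_max_left (-κ a) 0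
    rw [h1] at h2
    linarith
  refine ⟨κ, fun a => lt_of_le_of_ne (hκ0 a) fun h0 => ?_, hKκ⟩
  have h1 := hKκ a
  have h2 : ∑ b, (K a b : ℝ) * κ b ≤ 0 := by
    refine Finset.sum_nonpos fun b _ => ?_
    by_cases hab : a = b
    · subst hab
      rw [← h0, mul_zero]
    · have h5 : ((K a b : ℤ) : ℝ) ≤ 0 := by exact_mod_cast hK.off a b hab
      exact mul_nonpos_of_nonpos_of_nonneg h5 (hκ0 b)
  linarith

/-- fixed vectors of `A` are constant. -/
private lemma z1_const (K : Matrix ι ι ℤ) (hK : Eig.IsFT K) (hirr : Eig.Irred K) (d κ : ι → ℝ)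
    (hd : ∀ a, 0 < d a) (hκ : ∀ a, 0 < κ a) (hsym : ∀ a b, d a * (K a b : ℝ) = d b * K b a)
    (hKκ : ∀ a, ∑ b, (K a b : ℝ) * κ b = 1) (x : ι → ℝ)
    (hx : ∀ a, ∑ b, (K a b : ℝ) * κ b * x b = x a) : ∀ a b, x a = x b := by
  set w : ι → ι → ℝ := fun a b => d a * κ a * (K a b * κ b) with hw
  have hwsym : ∀ a b, w a b = w b a := by
    intro a b
    simp only [hw]
    linear_combination (κ a * κ b) * hsym a b
  have hwoff : ∀ a b, a ≠ b → w a b ≤ 0 := by
    intro a b hab
    have h5 : ((K a b : ℤ) : ℝ) ≤ 0 := by exact_mod_cast hK.off a b hab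
    have h6 : (K a b : ℝ) * κ b ≤ 0 := mul_nonpos_of_nonpos_of_nonneg h5 (hκ b).le
    exact mul_nonpos_of_nonneg_of_nonpos (mul_pos (hd a) (hκ a)).le h6
  have hrow : ∀ a, ∑ b, w a b = d a * κ a := by
    intro a
    simp only [hw]
    rw [← Finset.mul_sum, hKκ a, mul_one]
  have hquad : ∑ a, ∑ b, w a b * (x a * x b) = ∑ a, d a * κ a * x a ^ 2 := by
    refine Finset.sum_congr rfl fun a _ => ?_
    have h1 : ∑ b, w a b * (x a * x b) = d a * κ a * x a * ∑ b, (K a b : ℝ) * κ b * x b := by
      rw [Finset.mul_sum]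
      refine Finset.sum_congr rfl fun b _ => ?_
      simp only [hw]
      ring
    rw [h1, hx a]
    ring
  have hsq1 : ∑ a, ∑ b, w a b * x a ^ 2 = ∑ a, d a * κ a * x a ^ 2 := by
    refine Finset.sum_congr rfl fun a _ => ?_
    rw [← Finset.sum_mul, hrow]
  have hsq2 : ∑ a, ∑ b, w a b * x b ^ 2 = ∑ a, d a * κ a * x a ^ 2 := by
    rw [Finset.sum_comm, ← hsq1]
    refine Finset.sum_congr rfl fun a _ => Finset.sum_congr rfl fun b _ => ?_
    rw [hwsym b a]
  have hzero : ∑ a, ∑ b, w a b * (x a - x b) ^ 2 = 0 := by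
    have h1 : ∑ a, ∑ b, w a b * (x a - x b) ^ 2 =
        ∑ a, ∑ b, w a b * x a ^ 2 - 2 * ∑ a, ∑ b, w a b * (x a * x b) +
          ∑ a, ∑ b, w a b * x b ^ 2 := by
      rw [Finset.mul_sum, ← Finset.sum_sub_distrib, ← Finset.sum_add_distrib]
      refine Finset.sum_congr rfl fun a _ => ?_
      rw [Finset.mul_sum, ← Finset.sum_sub_distrib, ← Finset.sum_add_distrib]
      exact Finset.sum_congr rfl fun b _ => by ring
    rw [h1, hsq1, hsq2, hquad]
    ring
  have hterm : ∀ a b, w a b * (x a - x b) ^ 2 ≤ 0 := by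
    intro a b
    by_cases hab : a = b
    · subst hab
      simp
    · exact mul_nonpos_of_nonpos_of_nonneg (hwoff a b hab) (sq_nonneg _)
  have hall : ∀ a b, w a b * (x a - x b) ^ 2 = 0 := by
    intro a b
    have h1 : ∀ a ∈ Finset.univ, ∑ b, w a b * (x a - x b) ^ 2 = 0 :=
      (Finset.sum_eq_zero_iff_of_nonpos
        (fun a _ => Finset.sum_nonpos fun b _ => hterm a b)).1 hzero
    exact (Finset.sum_eq_zero_iff_of_nonpos (fun b _ => hterm a b)).1 (h1 a (Finset.mem_univ a)) b
      (Finset.mem_univ b)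
  have hedge : ∀ a b, (K a b : ℤ) ≠ 0 → x a = x b := by
    intro a b hab
    have h1 := hall a b
    have h2 : w a b ≠ 0 := by
      simp only [hw]
      have h3 : ((K a b : ℤ) : ℝ) ≠ 0 := by exact_mod_cast hab
      have h4 := (hd a).ne'
      have h5 := (hκ a).ne'
      have h6 := (hκ b).ne'
      positivity
    have h3 := (mul_eq_zero.1 h1).resolve_left h2
    have h4 : x a - x b = 0 := by
      exact pow_eq_zero_iff (two_ne_zero) |>.1 h3
    linarith
  intro a b
  by_contra hab
  obtain ⟨u, hu, v, hv, huv⟩ := hirr {c | x c = x a} ⟨a, rfl⟩ (by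
    intro h
    have hb : b ∈ {c | x c = x a} := by
      rw [h]
      exact mem_univ _
    exact hab hb.symm)
  apply hv
  have h1 := hedge u v huv
  have h2 : x u = x a := hu
  show x v = x a
  rw [← h1, h2]

/-! ### Z1 spectral data of a Cartan matrix -/
theorem exists_sys [Nonempty ι] (K : Matrix ι ι ℤ) (hK : Eig.IsFT K) (hirr : Eig.Irred K) :
    ∃ (S : Sys ι) (κ : ι → ℝ), (∀ a, 0 < κ a) ∧ (∀ a, ∑ b, (K a b : ℝ) * κ b = 1) ∧
      ∀ a b, Amat S a b = (K a b : ℝ) * κ b := by
  obtain ⟨d, hd, hpd⟩ := hK.pd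
  obtain ⟨κ, hκ, hKκ⟩ := z1_kappa K hK d hd hpd
  have hsym : ∀ a b, d a * (K a b : ℝ) = d b * K b a := by
    intro a b
    have h := hpd.1.apply a b
    simpa using h.symm
  -- the symmetrised matrix
  set w : ι → ℝ := fun a => Real.sqrt (κ a / d a) with hw
  have hwpos : ∀ a, 0 < w a := fun a => Real.sqrt_pos.2 (div_pos (hκ a) (hd a))
  have hw2 : ∀ a, w a ^ 2 = κ a / d a := fun a => Real.sq_sqrt (div_pos (hκ a) (hd a)).le
  set M : Matrix ι ι ℝ := Matrix.of fun a b => w a * (d a * (K a b : ℝ)) * w b with hM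
  have hMab : ∀ a b, M a b = w a * (d a * (K a b : ℝ)) * w b := fun a b => rfl
  have hMpd : M.PosDef := by
    refine Matrix.PosDef.of_dotProduct_mulVec_pos ?_ ?_
    · ext a b
      show star (M b a) = M a b
      rw [hMab, hMab, star_trivial, ← hsym a b]
      ring
    · intro x hx
      have hne : (fun a => w a * x a) ≠ 0 := by
        intro h
        apply hx
        funext a
        have h1 := congrFun h a
        simp only [Pi.zero_apply, mul_eq_zero] at h1
        exact h1.resolve_left (hwpos a).ne'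
      have h1 := hpd.dotProduct_mulVec_pos hne
      refine lt_of_lt_of_eq h1 ?_
      simp only [dotProduct, Matrix.mulVec, star_trivial, Matrix.of_apply]
      refine Finset.sum_congr rfl fun a _ => ?_
      rw [Finset.mul_sum, Finset.mul_sum]
      refine Finset.sum_congr rfl fun b _ => ?_
      rw [hMab]
      ring
  obtain ⟨lam, Q, hlam, horth, heig, hcomp⟩ := z1_spec M hMpd
  -- the weights
  set m : ι → ℝ := fun a => d a * κ a with hm
  have hmpos : ∀ a, 0 < m a := fun a => mul_pos (hd a) (hκ a)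
  set r : ι → ℝ := fun a => Real.sqrt (m a) with hr
  have hrpos : ∀ a, 0 < r a := fun a => Real.sqrt_pos.2 (hmpos a)
  have hr2 : ∀ a, r a ^ 2 = m a := fun a => Real.sq_sqrt (hmpos a).le
  have hrw : ∀ a, r a = d a * w a := by
    intro a
    have h1 : (d a * w a) ^ 2 = m a := by
      rw [mul_pow, hw2]
      have := (hd a).ne'
      simp only [hm]
      field_simp
    have h2 : 0 ≤ d a * w a := (mul_pos (hd a) (hwpos a)).le
    simp only [hr]
    rw [← h1, Real.sqrt_sq h2]
  have hwr : ∀ a, w a * r a = κ a := by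
    intro a
    rw [hrw]
    have h1 := hw2 a
    have := (hd a).ne'
    have h2 : w a * (d a * w a) = d a * w a ^ 2 := by ring
    rw [h2, h1]
    field_simp
  -- the eigenvectors in the original coordinates
  set T0 : ι → ι → ℝ := fun a j => Q a j / r a with hT0
  have hT0orth : ∀ j k, ∑ a, m a * T0 a j * T0 a k = if j = k then 1 else 0 := by
    intro j k
    rw [← horth j k]
    refine Finset.sum_congr rfl fun a _ => ?_
    simp only [hT0]
    rw [← hr2 a]
    have := (hrpos a).ne'
    field_simp
  have hT0eig : ∀ j a, ∑ b, (K a b : ℝ) * κ b * T0 b j = lam j * T0 a j := by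
    intro j a
    have h1 := heig a j
    have h2 : ∑ b, M a b * Q b j = r a * ∑ b, (K a b : ℝ) * κ b * T0 b j := by
      rw [Finset.mul_sum]
      refine Finset.sum_congr rfl fun b _ => ?_
      rw [hMab, hrw a]
      simp only [hT0]
      rw [← hwr b]
      have := (hrpos b).ne'
      field_simp
    rw [h2] at h1
    have h3 := (hrpos a).ne'
    show ∑ b, (K a b : ℝ) * κ b * T0 b j = lam j * (Q a j / r a)
    rw [← mul_div_assoc, eq_div_iff h3, mul_comm]
    exact h1
  have hT0A : ∀ a b, m b * ∑ j, lam j * T0 a j * T0 b j = (K a b : ℝ) * κ b := by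
    intro a b
    have h1 := hcomp a b
    have h2 : ∑ j, lam j * T0 a j * T0 b j = M a b / (r a * r b) := by
      rw [h1, Finset.sum_div]
      refine Finset.sum_congr rfl fun j _ => ?_
      simp only [hT0]
      have ha := (hrpos a).ne'
      have hb := (hrpos b).ne'
      field_simp
    rw [h2, hMab, ← hr2 b, ← hwr b, hrw a]
    have ha := (hwpos a).ne'
    have hb := (hrpos b).ne'
    have hda := (hd a).ne'
    field_simp
  -- triangular eigenvalues
  have hT0ne : ∀ j, (fun a => T0 a j) ≠ 0 := by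
    intro j h
    have h1 := hT0orth j j
    rw [if_pos rfl] at h1
    have h2 : ∑ a, m a * T0 a j * T0 a j = 0 := by
      refine Finset.sum_eq_zero fun a _ => ?_
      have := congrFun h a
      simp only [Pi.zero_apply] at this
      rw [this, mul_zero]
    linarith
  have htri : ∀ j, ∃ n : ℕ, 1 ≤ n ∧ lam j = n * (n + 1) / 2 := fun j =>
    Eig.eig_triangular hK hirr κ hKκ (lam j) (hlam j) (fun a => T0 a j) (hT0ne j)
      (fun a => hT0eig j a)
  choose nn hnn1 hnn using htri
  -- one eigenvalue is one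
  have hex : ∃ o, lam o = 1 := by
    by_contra hno
    push Not at hno
    have hγ : ∀ j, ∑ a, m a * T0 a j = 0 := by
      intro j
      have h1 : ∑ a, m a * (∑ b, (K a b : ℝ) * κ b * T0 b j) = ∑ b, m b * T0 b j := by
        simp only [Finset.mul_sum]
        rw [Finset.sum_comm]
        refine Finset.sum_congr rfl fun b _ => ?_
        have h2 : ∑ a, m a * ((K a b : ℝ) * κ b * T0 b j) =
            m b * T0 b j * ∑ a, (K b a : ℝ) * κ a := by
          rw [Finset.mul_sum]
          refine Finset.sum_congr rfl fun a _ => ?_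
          simp only [hm]
          linear_combination (κ a * κ b * T0 b j) * hsym a b
        rw [h2, hKκ b, mul_one]
      have h2 : ∑ a, m a * (∑ b, (K a b : ℝ) * κ b * T0 b j) = lam j * ∑ a, m a * T0 a j := by
        rw [Finset.mul_sum]
        refine Finset.sum_congr rfl fun a _ => ?_
        rw [hT0eig]
        ring
      rw [h1] at h2
      have h3 : (lam j - 1) * ∑ a, m a * T0 a j = 0 := by linarith
      exact (mul_eq_zero.1 h3).resolve_left (sub_ne_zero.2 (hno j))
    -- completeness: the constant vector has a nonzero coefficient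
    have hQγ : ∀ j, ∑ a, r a * Q a j = 0 := by
      intro j
      rw [← hγ j]
      refine Finset.sum_congr rfl fun a _ => ?_
      simp only [hT0]
      rw [← hr2 a]
      have := (hrpos a).ne'
      field_simp
    have hQQ : ∀ a b, ∑ j, Q a j * Q b j = if a = b then 1 else 0 := by
      set Qm : Matrix ι ι ℝ := Matrix.of Q with hQm
      have h1 : Qm.transpose * Qm = 1 := by
        ext j k
        rw [Matrix.mul_apply, Matrix.one_apply]
        exact horth j k
      have h2 : Qm * Qm.transpose = 1 := mul_eq_one_comm.1 h1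
      intro a b
      have h3 := congrFun (congrFun h2 a) b
      rw [Matrix.mul_apply, Matrix.one_apply] at h3
      exact h3
    obtain ⟨b⟩ := (inferInstance : Nonempty ι)
    have h1 : r b = 0 := by
      have h2 : ∑ a, r a * ∑ j, Q a j * Q b j = r b := by
        simp only [hQQ, mul_ite, mul_one, mul_zero]
        simp
      rw [← h2]
      simp only [Finset.mul_sum]
      rw [Finset.sum_comm]
      refine Finset.sum_eq_zero fun j _ => ?_
      have h3 : ∑ a, r a * (Q a j * Q b j) = (∑ a, r a * Q a j) * Q b j := by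
        rw [Finset.sum_mul]
        exact Finset.sum_congr rfl fun a _ => by ring
      rw [h3, hQγ, zero_mul]
    exact (hrpos b).ne' h1
  obtain ⟨o, ho⟩ := hex
  have hconst : ∀ j, lam j = 1 → ∀ a b, T0 a j = T0 b j := by
    intro j hj
    refine z1_const K hK hirr d κ hd hκ hsym hKκ (fun a => T0 a j) fun a => ?_
    have h1 := hT0eig j a
    rw [hj, one_mul] at h1
    exact h1
  have huniq : ∀ j, j ≠ o → lam j ≠ 1 := by
    intro j hjo hj
    obtain ⟨b⟩ := (inferInstance : Nonempty ι)
    have h1 := hT0orth j o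
    rw [if_neg hjo] at h1
    have h2 : ∑ a, m a * T0 a j * T0 a o = (∑ a, m a) * (T0 b j * T0 b o) := by
      rw [Finset.sum_mul]
      refine Finset.sum_congr rfl fun a _ => ?_
      rw [hconst j hj a b, hconst o ho a b]
      ring
    rw [h2] at h1
    have hmsum : 0 < ∑ a, m a := Finset.sum_pos (fun a _ => hmpos a) Finset.univ_nonempty
    have h3 := (mul_eq_zero.1 h1).resolve_left hmsum.ne'
    rcases mul_eq_zero.1 h3 with h | h
    · exact hT0ne j (funext fun a => by rw [hconst j hj a b, h]; rfl)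
    · exact hT0ne o (funext fun a => by rw [hconst o ho a b, h]; rfl)
  -- natural eigenvalues
  have hnat : ∀ j, ∃ μ : ℕ, 2 * μ = nn j * (nn j + 1) := by
    intro j
    obtain ⟨k, hk⟩ := Nat.even_mul_succ_self (nn j)
    exact ⟨k, by rw [hk]; ring⟩
  choose μ hμ using hnat
  have hμlam : ∀ j, (μ j : ℝ) = lam j := by
    intro j
    rw [hnn j]
    have h1 : ((2 * μ j : ℕ) : ℝ) = ((nn j * (nn j + 1) : ℕ) : ℝ) := by rw [hμ j]
    push_cast at h1
    linarith
  have hμo : μ o = 1 := by
    have h1 := hμlam o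
    rw [ho] at h1
    exact_mod_cast h1
  have hnn2 : ∀ j, j ≠ o → 2 ≤ nn j := by
    intro j hj
    by_contra hlt
    have h1 : nn j = 1 := by
      have := hnn1 j
      omega
    apply huniq j hj
    rw [hnn j, h1]
    norm_num
  have hμ1 : ∀ j, j ≠ o → 1 < μ j := by
    intro j hj
    have h1 := hnn2 j hj
    have h2 := hμ j
    nlinarith
  -- sign of the constant eigenvector
  obtain ⟨b0⟩ := (inferInstance : Nonempty ι)
  set t : ℝ := T0 b0 o with ht
  have hTo : ∀ a, T0 a o = t := fun a => hconst o ho a b0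
  set c : ℝ := ∑ a, m a with hc
  have hc0 : 0 < c := Finset.sum_pos (fun a _ => hmpos a) ⟨b0, Finset.mem_univ b0⟩
  have htc : t ^ 2 * c = 1 := by
    have h1 := hT0orth o o
    rw [if_pos rfl] at h1
    rw [← h1, hc, Finset.mul_sum]
    refine Finset.sum_congr rfl fun a _ => ?_
    rw [hTo a]
    ring
  have htabs : |t| * Real.sqrt c = 1 := by
    have h1 : (|t| * Real.sqrt c) ^ 2 = 1 := by
      rw [mul_pow, sq_abs, Real.sq_sqrt hc0.le, htc]
    have h2 : 0 ≤ |t| * Real.sqrt c := by positivity
    nlinarith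
  set σ : ℝ := if 0 ≤ t then 1 else -1 with hσ
  have hσ2 : σ * σ = 1 := by
    rw [hσ]
    split_ifs <;> norm_num
  have hσt : t * σ = |t| := by
    rw [hσ]
    split_ifs with h
    · rw [abs_of_nonneg h, mul_one]
    · rw [abs_of_neg (not_le.1 h)]
      ring
  set s : ι → ℝ := fun j => if j = o then σ else 1 with hs
  have hs2 : ∀ j, s j * s j = 1 := by
    intro j
    simp only [hs]
    split_ifs
    · exact hσ2
    · norm_num
  let S : Sys ι :=
    { o := o
      μ := μ
      μ_o := hμo
      one_lt := hμ1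
      nonres := by
        intro j hj k hk
        have h1 := Eig.kmu_not_int (nn j) (hnn2 j hj) (μ j) (hμ j) (k : ℤ)
        apply h1
        have h2 : (((μ j : ℚ) * harmonic (2 * μ j - 1) / (2 * μ j - 1 : ℕ) : ℚ) : ℝ) =
            ((k : ℤ) : ℝ) := by
          rw [show ((k : ℤ) : ℝ) = (k : ℝ) by push_cast; rfl, ← hk]
          unfold kmu
          push_cast
          rfl
        exact_mod_cast h2
      m := m
      m_pos := hmpos
      T := fun a j => T0 a j * s j
      orth := by
        intro j k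
        have h1 : ∑ a, m a * (T0 a j * s j) * (T0 a k * s k) =
            (s j * s k) * ∑ a, m a * T0 a j * T0 a k := by
          rw [Finset.mul_sum]
          exact Finset.sum_congr rfl fun a _ => by ring
        rw [h1, hT0orth]
        by_cases hjk : j = k
        · subst hjk
          rw [if_pos rfl, hs2, mul_one]
        · rw [if_neg hjk, mul_zero]
      T_o := by
        intro a
        show T0 a o * s o * Real.sqrt (∑ b, m b) = 1
        rw [hTo a]
        simp only [hs, if_true]
        rw [hσt]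
        exact htabs }
  refine ⟨S, κ, hκ, hKκ, fun a b => ?_⟩
  show m b * ∑ j, (μ j : ℝ) * (T0 a j * s j) * (T0 b j * s j) = _
  rw [← hT0A a b]
  congr 1
  refine Finset.sum_congr rfl fun j _ => ?_
  rw [hμlam j]
  have h1 := hs2 j
  linear_combination (lam j * T0 a j * T0 b j) * h1

end Pool.MP_ad5d82_an.Wl
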