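import Pool.Agent.Lib.MP_ad5d82_an.h24.P.P20
import Pool.Agent.Lib.MP_ad5d82_an.h24.Z.Z1
import Pool.Agent.Lib.MP_ad5d82_an.h24.EigDefs

set_option autoImplicit false

namespace Pool.MP_ad5d82_an.Wl

open Real Set MeasureTheory Filter Topology
open scoped ContDiff

variable {ι : Type} [Fintype ι] [DecidableEq ι]

private theorem Z2_ee {nv : ℕ} (p : Fin nv → ℂ) (cp : Fin nv → ι) (h : ι → ℂ → ℝ) (κ : ι → ℝ)
    (hκ : ∀ a, 0 < κ a) (b : ι) (x : ℂ) :
    ee p cp (fun a x => h a x + Real.log (κ a)) b x = κ b * ee p cp h b x := by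
  unfold ee
  rw [Real.exp_add, Real.exp_log (hκ b)]
  ring

/-! ### Z2 solution for an irreducible block with vortices -/
theorem block_classical [Nonempty ι] (K : Matrix ι ι ℤ) (hK : Eig.IsFT K) (hirr : Eig.Irred K)
    (nv : ℕ) (hnv : 0 < nv) (p : Fin nv → ℂ) (cp : Fin nv → ι) :
    ∃ h : ι → ℂ → ℝ, (∀ a, ContDiff ℝ ∞ (h a)) ∧
      (∀ a x, lapC (h a) x = ∑ b, ∑ c, (K a b : ℝ) * ee p cp h b x * (K b c : ℝ) * ee p cp h c x
        - ∑ b, (K a b : ℝ) * ee p cp h b x) ∧
      (∀ a, Tendsto (ee p cp h a) (cocompact ℂ) (𝓝 0)) := by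
  obtain ⟨S, κ, hκ, -, hA⟩ := exists_sys K hK hirr
  obtain ⟨h, hs, he, ht⟩ := classical S nv hnv p cp
  refine ⟨fun a x => h a x + Real.log (κ a), fun a => (hs a).add contDiff_const, ?_, ?_⟩
  · intro a x
    have h1 : lapC (fun x => h a x + Real.log (κ a)) x = lapC (h a) x := by
      unfold lapC
      have h2 : ∀ w : ℂ, fderiv ℝ (fun x => h a x + Real.log (κ a)) w = fderiv ℝ (h a) w := by
        intro w
        exact fderiv_add_const _
      simp only [h2]
    rw [h1, he a x]
    simp only [Z2_ee p cp h κ hκ, hA]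
    rw [← Finset.sum_sub_distrib]
    apply Finset.sum_congr rfl
    intro b _
    rw [mul_sub, mul_sub, Finset.mul_sum, Finset.mul_sum]
    congr 1
    · apply Finset.sum_congr rfl
      intro c _
      ring
    · ring
  · intro a
    have h3 : ee p cp (fun a x => h a x + Real.log (κ a)) a = fun x => κ a * ee p cp h a x := by
      funext x
      exact Z2_ee p cp h κ hκ a x
    rw [h3]
    have h4 := (ht a).const_mul (κ a)
    simpa using h4

end Pool.MP_ad5d82_an.Wl
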