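import Pool.Agent.Lib.MP_ad5d82_an.h24.Z.Z2
import Pool.Agent.Lib.MP_ad5d82_an.h24.Rad.PlaneMain
import Pool.Agent.Lib.MP_ad5d82_an.h24.Rad.CartanSym

/-!
# Z3: solutions on `ℝ × ℝ` for one irreducible block
-/

set_option autoImplicit false

namespace Pool.MP_ad5d82_an.Wl

open Real Set MeasureTheory Filter Topology
open scoped ContDiff
open Pool.Agent.MPad5d82 (Lap NL r2)

/-- The five properties of the frozen statement. -/
structure IsSol {ι : Type} [Fintype ι] (M : Matrix ι ι ℝ) (lam : ℝ) (N : ι → ℕ)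
    (p : (a : ι) → Fin (N a) → ℝ × ℝ) (u : ι → ℝ × ℝ → ℝ) : Prop where
  smooth : ∀ a, ContDiffOn ℝ ((⊤ : ℕ∞) : WithTop ℕ∞) (u a)
    {x | ∀ (b : ι) (j : Fin (N b)), x ≠ p b j}
  li : ∀ a, LocallyIntegrable (u a) volume
  li' : ∀ a, LocallyIntegrable (fun x => NL M u a x) volume
  eq : ∀ a, ∀ φ : ℝ × ℝ → ℝ, ContDiff ℝ ((⊤ : ℕ∞) : WithTop ℕ∞) φ → HasCompactSupport φ →
    ∫ x, u a x * Lap φ x = (∫ x, lam * NL M u a x * φ x) + 4 * Real.pi * ∑ j : Fin (N a), φ (p a j)
  lim : ∀ a, Tendsto (fun x => Real.exp (u a x)) (cocompact (ℝ × ℝ)) (𝓝 0)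

/-- the scaled identification of the plane with `ℂ`, as a continuous linear equivalence -/
noncomputable def zz (s : ℝ) : (ℝ × ℝ) →L[ℝ] ℂ :=
  s • (Complex.equivRealProdCLM.symm : (ℝ × ℝ) →L[ℝ] ℂ)

theorem zz_apply (s : ℝ) (x : ℝ × ℝ) : zz s x = (s : ℂ) * (x.1 + x.2 * Complex.I) := by
  simp [zz, Complex.equivRealProdCLM_symm_apply, mul_add]

theorem zz_norm (s : ℝ) (x q : ℝ × ℝ) : ‖zz s x - zz s q‖ ^ 2 = s ^ 2 * r2 q x := by
  rw [zz_apply, zz_apply, ← mul_sub, norm_mul, mul_pow]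
  congr 1
  · simp
  · rw [← Complex.normSq_eq_norm_sq, Complex.normSq_apply]
    simp [r2]
    ring

theorem zz_e1 (s : ℝ) : zz s (1, 0) = (s : ℂ) := by simp [zz_apply]
theorem zz_e2 (s : ℝ) : zz s (0, 1) = (s : ℂ) * Complex.I := by simp [zz_apply]

theorem zz_tendsto (s : ℝ) (hs : 0 < s) : Tendsto (zz s) (cocompact (ℝ × ℝ)) (cocompact ℂ) := by
  have h1 : Tendsto (Complex.equivRealProdCLM.symm) (cocompact (ℝ × ℝ)) (cocompact ℂ) :=
    Complex.equivRealProdCLM.symm.toHomeomorph.isClosedEmbedding.tendsto_cocompact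
  have h2 : Tendsto (fun z : ℂ => s • z) (cocompact ℂ) (cocompact ℂ) :=
    (Homeomorph.smulOfNeZero s hs.ne').isClosedEmbedding.tendsto_cocompact
  exact h2.comp h1

/-- second line derivatives of `h ∘ zz s` -/
theorem zz_fderiv {h : ℂ → ℝ} (hh : ContDiff ℝ ∞ h) (s : ℝ) (x v : ℝ × ℝ) :
    fderiv ℝ (fun y => h (zz s y)) x v = fderiv ℝ h (zz s x) (zz s v) := by
  have h1 : DifferentiableAt ℝ h (zz s x) := (hh.differentiable (by simp)) _
  have h2 : HasFDerivAt (fun y => h (zz s y)) ((fderiv ℝ h (zz s x)).comp (zz s)) x :=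
    h1.hasFDerivAt.comp x (zz s).hasFDerivAt
  rw [h2.fderiv]
  rfl

theorem zz_second {h : ℂ → ℝ} (hh : ContDiff ℝ ∞ h) (s : ℝ) (x : ℝ × ℝ) :
    fderiv ℝ (fun y => fderiv ℝ (fun y => h (zz s y)) y (1, 0)) x (1, 0)
      + fderiv ℝ (fun y => fderiv ℝ (fun y => h (zz s y)) y (0, 1)) x (0, 1)
      = s ^ 2 * lapC h (zz s x) := by
  have key : ∀ e : ℝ × ℝ, ∀ w : ℂ, zz s e = (s : ℂ) * w →
      fderiv ℝ (fun y => fderiv ℝ (fun y => h (zz s y)) y e) x e
        = s ^ 2 * fderiv ℝ (fun z => fderiv ℝ h z w) (zz s x) w := by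
    intro e w hew
    have h1 : (fun y => fderiv ℝ (fun y => h (zz s y)) y e)
        = fun y => s • (fun z => fderiv ℝ h z w) (zz s y) := by
      funext y
      rw [zz_fderiv hh s y e, hew]
      have : ((s : ℂ) * w) = s • w := by simp
      rw [this, map_smul]
    have hd : ContDiff ℝ ∞ (fun z => fderiv ℝ h z w) :=
      (hh.fderiv_right (m := ∞) (by simp)).clm_apply contDiff_const
    have h3 : ContDiff ℝ ∞ (fun z => s • (fun z => fderiv ℝ h z w) z) := hd.const_smul s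
    rw [h1]
    have h4 := zz_fderiv h3 s x e
    simp only at h4 ⊢
    rw [h4, hew]
    have : ((s : ℂ) * w) = s • w := by simp
    rw [this, map_smul]
    have h5 : fderiv ℝ (fun z => s • fderiv ℝ h z w) (zz s x) = s • fderiv ℝ (fun z => fderiv ℝ h z w) (zz s x) :=
      fderiv_const_smul ((hd.differentiable (by simp)) _) s
    rw [h5]
    simp only [ContinuousLinearMap.smul_apply, smul_eq_mul]
    ring
  rw [key (1, 0) 1 (by rw [zz_e1]; simp), key (0, 1) Complex.I (zz_e2 s), lapC]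
  ring

/-- integration by parts for `h ∘ zz s`. -/
theorem zz_ibp {h : ℂ → ℝ} (hh : ContDiff ℝ ∞ h) (s : ℝ) (φ : ℝ × ℝ → ℝ)
    (hφ : ContDiff ℝ ((⊤ : ℕ∞) : WithTop ℕ∞) φ) (hc : HasCompactSupport φ) :
    Integrable (fun x => h (zz s x) * Lap φ x) volume ∧
    ∫ x, h (zz s x) * Lap φ x = ∫ x, s ^ 2 * lapC h (zz s x) * φ x := by
  have hv : ContDiff ℝ ∞ (fun y => h (zz s y)) := hh.comp (zz s).contDiff
  have hd : ∀ e : ℝ × ℝ, ContDiff ℝ ∞ (fun y => fderiv ℝ (fun y => h (zz s y)) y e) := fun e =>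
    (hv.fderiv_right (m := ∞) (by simp)).clm_apply contDiff_const
  have hd2 : ∀ e : ℝ × ℝ, ContDiff ℝ ∞ (fun x => fderiv ℝ (fun y => fderiv ℝ (fun y => h (zz s y)) y e) x e) :=
    fun e => ((hd e).fderiv_right (m := ∞) (by simp)).clm_apply contDiff_const
  have key : ∀ e : ℝ × ℝ, ∫ x, h (zz s x) * iteratedFDeriv ℝ 2 φ x (![e, e] : Fin 2 → ℝ × ℝ)
      = ∫ x, fderiv ℝ (fun y => fderiv ℝ (fun y => h (zz s y)) y e) x e * φ x := by
    intro e
    refine Pool.Agent.MPad5d82.ibp2 (fun y => h (zz s y)) (fun y => fderiv ℝ (fun y => h (zz s y)) y e)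
      (fun x => fderiv ℝ (fun y => fderiv ℝ (fun y => h (zz s y)) y e) x e) e hv.continuous (hd e).continuous
      (hd2 e).continuous.locallyIntegrable ?_ ?_ φ hφ hc
    · intro x
      exact ((hv.differentiable (by simp)) x).hasFDerivAt.hasLineDerivAt e
    · intro x
      exact (((hd e).differentiable (by simp)) x).hasFDerivAt.hasLineDerivAt e
  have hc2 : ∀ e : ℝ × ℝ, Continuous (fun x => iteratedFDeriv ℝ 2 φ x (![e, e] : Fin 2 → ℝ × ℝ)) ∧
      HasCompactSupport (fun x => iteratedFDeriv ℝ 2 φ x (![e, e] : Fin 2 → ℝ × ℝ)) := by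
    intro e
    obtain ⟨hg1, hg1c, _⟩ := Pool.Agent.MPad5d82.ibp_first φ e hφ hc
    obtain ⟨hg2, hg2c, _⟩ := Pool.Agent.MPad5d82.ibp_first (fun y => fderiv ℝ φ y e) e hg1 hg1c
    have he : (fun x => iteratedFDeriv ℝ 2 φ x (![e, e] : Fin 2 → ℝ × ℝ)) =
        fun x => fderiv ℝ (fun y => fderiv ℝ φ y e) x e := by
      ext x
      exact Pool.Agent.MPad5d82.ibp_second φ e hφ x
    rw [he]
    exact ⟨hg2.continuous, hg2c⟩
  have i1 : ∀ e : ℝ × ℝ, Integrable (fun x => h (zz s x) * iteratedFDeriv ℝ 2 φ x (![e, e] : Fin 2 → ℝ × ℝ)) volume :=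
    fun e => (hv.continuous.mul (hc2 e).1).integrable_of_hasCompactSupport (hc2 e).2.mul_left
  have i2 : ∀ e : ℝ × ℝ, Integrable (fun x => fderiv ℝ (fun y => fderiv ℝ (fun y => h (zz s y)) y e) x e * φ x) volume :=
    fun e => ((hd2 e).continuous.mul hφ.continuous).integrable_of_hasCompactSupport hc.mul_left
  have hL : (fun x => h (zz s x) * Lap φ x) = fun x =>
      h (zz s x) * iteratedFDeriv ℝ 2 φ x (![((1 : ℝ), (0 : ℝ)), ((1 : ℝ), (0 : ℝ))] : Fin 2 → ℝ × ℝ)
      + h (zz s x) * iteratedFDeriv ℝ 2 φ x (![((0 : ℝ), (1 : ℝ)), ((0 : ℝ), (1 : ℝ))] : Fin 2 → ℝ × ℝ) := by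
    funext x
    rw [Lap, mul_add]
  constructor
  · rw [hL]
    exact (i1 (1, 0)).add (i1 (0, 1))
  · rw [hL, integral_add (i1 (1, 0)) (i1 (0, 1)), key (1, 0), key (0, 1), ← integral_add (i2 (1, 0)) (i2 (0, 1))]
    refine integral_congr_ae (Eventually.of_forall fun x => ?_)
    simp only
    rw [← add_mul, zz_second hh s x]

variable {ι : Type} [Fintype ι] [DecidableEq ι]

/-- an irreducible block with at least one vortex -/
theorem block_planar [Nonempty ι] (K : Matrix ι ι ℤ) (hK : Eig.IsFT K) (hirr : Eig.Irred K)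
    (lam : ℝ) (hlam : 0 < lam) (N : ι → ℕ) (hN : ∃ a, N a ≠ 0) (p : (a : ι) → Fin (N a) → ℝ × ℝ) :
    ∃ u : ι → ℝ × ℝ → ℝ, IsSol (Matrix.of fun a b => (K a b : ℝ)) lam N p u := by
  classical
  set s : ℝ := Real.sqrt lam with hs
  have hs0 : 0 < s := Real.sqrt_pos.mpr hlam
  have hs2 : s ^ 2 = lam := Real.sq_sqrt hlam.le
  set e := Fintype.equivFin (Σ a : ι, Fin (N a)) with he
  set nv : ℕ := Fintype.card (Σ a : ι, Fin (N a)) with hnv
  have hnv0 : 0 < nv := by
    obtain ⟨a, ha⟩ := hN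
    exact Fintype.card_pos_iff.mpr ⟨⟨a, ⟨0, Nat.pos_of_ne_zero ha⟩⟩⟩
  set p' : Fin nv → ℂ := fun n => zz s (p (e.symm n).1 (e.symm n).2) with hp'
  set cp : Fin nv → ι := fun n => (e.symm n).1 with hcp
  obtain ⟨h, hh1, hh2, hh3⟩ := block_classical K hK hirr nv hnv0 p' cp
  -- the product
  have hprod : ∀ (b : ι) (w : ℂ), (∏ n, if cp n = b then ‖w - p' n‖ ^ 2 else 1)
      = ∏ j : Fin (N b), ‖w - zz s (p b j)‖ ^ 2 := by
    intro b w
    have h1 : (∏ n, if cp n = b then ‖w - p' n‖ ^ 2 else 1)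
        = ∏ σ : (Σ a : ι, Fin (N a)), if σ.1 = b then ‖w - zz s (p σ.1 σ.2)‖ ^ 2 else 1 := by
      rw [← e.symm.prod_comp]
    rw [h1, Fintype.prod_sigma]
    rw [Finset.prod_eq_single b]
    · refine Finset.prod_congr rfl fun j _ => by simp
    · intro a _ hab
      refine Finset.prod_eq_one fun j _ => by simp [hab]
    · intro hb; exact absurd (Finset.mem_univ _) hb
  set u : ι → ℝ × ℝ → ℝ := fun a x => (∑ j : Fin (N a), Real.log (r2 (p a j) x))
    + (N a * Real.log lam + h a (zz s x)) with hu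
  have hr2pos : ∀ (q x : ℝ × ℝ), x ≠ q → 0 < r2 q x := fun q x hx => Pool.Agent.MPad5d82.r2_pos hx
  have hexp : ∀ b x, (∀ j : Fin (N b), x ≠ p b j) → Real.exp (u b x) = ee p' cp h b (zz s x) := by
    intro b x hx
    simp only [hu, ee]
    rw [hprod b (zz s x), Real.exp_add, Real.exp_add, Real.exp_sum]
    have e1 : ∀ j : Fin (N b), ‖zz s x - zz s (p b j)‖ ^ 2 = lam * r2 (p b j) x := fun j => by
      rw [zz_norm, hs2]
    simp_rw [e1]
    rw [Finset.prod_mul_distrib, Finset.prod_const, Finset.card_univ, Fintype.card_fin]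
    have e2 : ∀ j : Fin (N b), Real.exp (Real.log (r2 (p b j) x)) = r2 (p b j) x := fun j =>
      Real.exp_log (hr2pos _ _ (hx j))
    simp_rw [e2]
    have e3 : Real.exp (N b * Real.log lam) = lam ^ (N b) := by
      rw [Real.exp_nat_mul, Real.exp_log hlam]
    rw [e3]
    ring
  -- almost every point is not a vortex
  have hae : ∀ᵐ x : ℝ × ℝ ∂volume, ∀ (b : ι) (j : Fin (N b)), x ≠ p b j := by
    rw [ae_all_iff]; intro b
    rw [ae_all_iff]; intro j
    exact Pool.Agent.MPad5d82.ae_ne _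
  have hNL : ∀ a x, (∀ (b : ι) (j : Fin (N b)), x ≠ p b j) →
      NL (Matrix.of fun a b => (K a b : ℝ)) u a x = lapC (h a) (zz s x) := by
    intro a x hx
    rw [hh2 a (zz s x), NL]
    simp only [Matrix.of_apply]
    have e1 : ∀ b, Real.exp (u b x) = ee p' cp h b (zz s x) := fun b => hexp b x (hx b)
    simp_rw [e1]
  have hlapc : ∀ a, Continuous (lapC (h a)) := by
    intro a
    have hd : ∀ w : ℂ, ContDiff ℝ ∞ (fun z => fderiv ℝ (h a) z w) := fun w =>
      ((hh1 a).fderiv_right (m := ∞) (by simp)).clm_apply contDiff_const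
    have hd2 : ∀ w : ℂ, ContDiff ℝ ∞ (fun z => fderiv ℝ (fun z => fderiv ℝ (h a) z w) z w) := fun w =>
      ((hd w).fderiv_right (m := ∞) (by simp)).clm_apply contDiff_const
    exact (hd2 1).continuous.add (hd2 Complex.I).continuous
  refine ⟨u, ?_, ?_, ?_, ?_, ?_⟩
  · intro a
    simp only [hu]
    refine ContDiffOn.add ?_ (contDiffOn_const.add ((hh1 a).comp (zz s).contDiff).contDiffOn)
    refine ContDiffOn.sum fun j _ => ?_
    refine ContDiffOn.log (Pool.Agent.MPad5d82.contDiff_r2 _).contDiffOn ?_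
    intro x hx
    exact (hr2pos _ _ (hx a j)).ne'
  · intro a
    simp only [hu]
    have e1 : LocallyIntegrable (fun x => ∑ j : Fin (N a), Real.log (r2 (p a j) x)) volume := by
      have : (fun x => ∑ j : Fin (N a), Real.log (r2 (p a j) x))
          = ∑ j : Fin (N a), fun x => Real.log (r2 (p a j) x) := by
        funext x; simp
      rw [this]
      exact MeasureTheory.locallyIntegrable_finsetSum' _ fun j _ =>
        Pool.Agent.MPad5d82.locallyIntegrable_log_r2 _
    have e2 : LocallyIntegrable (fun x => (N a : ℝ) * Real.log lam + h a (zz s x)) volume :=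
      (continuous_const.add ((hh1 a).continuous.comp (zz s).continuous)).locallyIntegrable
    exact e1.add e2
  · intro a
    have e1 : LocallyIntegrable (fun x => lapC (h a) (zz s x)) volume :=
      ((hlapc a).comp (zz s).continuous).locallyIntegrable
    refine e1.congr ?_
    filter_upwards [hae] with x hx
    exact (hNL a x hx).symm
  · intro a φ hφ hc
    have hLc := Pool.Agent.MPad5d82.lap_cont φ hφ hc
    obtain ⟨i3, e3⟩ := zz_ibp (hh1 a) s φ hφ hc
    have i1 : ∀ j : Fin (N a), Integrable (fun x => Real.log (r2 (p a j) x) * Lap φ x) volume := by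
      intro j
      have := (Pool.Agent.MPad5d82.locallyIntegrable_log_r2 (p a j)).integrable_smul_right_of_hasCompactSupport
        hLc.1 hLc.2
      simpa [smul_eq_mul] using this
    have i2 : Integrable (Lap φ) volume := hLc.1.integrable_of_hasCompactSupport hLc.2
    have i2' : Integrable (fun x => (N a : ℝ) * Real.log lam * Lap φ x) volume := i2.const_mul _
    have i1' : Integrable (fun x => ∑ j : Fin (N a), Real.log (r2 (p a j) x) * Lap φ x) volume :=
      integrable_finsetSum _ fun j _ => i1 j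
    have e1 : ∫ x, u a x * Lap φ x = (∫ x, ∑ j : Fin (N a), Real.log (r2 (p a j) x) * Lap φ x)
        + ((∫ x, (N a : ℝ) * Real.log lam * Lap φ x) + ∫ x, h a (zz s x) * Lap φ x) := by
      have i23 : Integrable (fun x => (N a : ℝ) * Real.log lam * Lap φ x + h a (zz s x) * Lap φ x) volume :=
        i2'.add i3
      rw [← integral_add i2' i3, ← integral_add i1' i23]
      refine integral_congr_ae (Eventually.of_forall fun x => ?_)
      simp only [hu]
      rw [add_mul, Finset.sum_mul]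
      ring
    rw [e1, integral_finsetSum _ fun j _ => i1 j, integral_const_mul,
      Pool.Agent.MPad5d82.integral_lap_eq_zero φ hφ hc, e3]
    have e4 : ∫ x, s ^ 2 * lapC (h a) (zz s x) * φ x
        = ∫ x, lam * NL (Matrix.of fun a b => (K a b : ℝ)) u a x * φ x := by
      refine integral_congr_ae ?_
      filter_upwards [hae] with x hx
      rw [hNL a x hx, hs2]
    rw [e4]
    have e5 : ∑ j : Fin (N a), ∫ x, Real.log (r2 (p a j) x) * Lap φ x = 4 * Real.pi * ∑ j : Fin (N a), φ (p a j) := by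
      rw [Finset.mul_sum]
      exact Finset.sum_congr rfl fun j _ => Pool.Agent.MPad5d82.log_fund _ φ hφ hc
    rw [e5]
    ring
  · intro a
    have e1 : Tendsto (fun x => ee p' cp h a (zz s x)) (cocompact (ℝ × ℝ)) (𝓝 0) :=
      (hh3 a).comp (zz_tendsto s hs0)
    refine e1.congr' ?_
    have hfin : ∀ᶠ x in cocompact (ℝ × ℝ), ∀ j : Fin (N a), x ≠ p a j := by
      rw [eventually_all]
      intro j
      have : {p a j}ᶜ ∈ cocompact (ℝ × ℝ) := isCompact_singleton.compl_mem_cocompact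
      filter_upwards [this] with x hx using hx
    filter_upwards [hfin] with x hx
    exact (hexp a x hx).symm

/-- an irreducible block without vortices -/
theorem block_planar_zero (K : Matrix ι ι ℤ) (hK : Eig.IsFT K)
    (lam : ℝ) (hlam : 0 < lam) (N : ι → ℕ) (hN : ∀ a, N a = 0) (p : (a : ι) → Fin (N a) → ℝ × ℝ) :
    ∃ u : ι → ℝ × ℝ → ℝ, IsSol (Matrix.of fun a b => (K a b : ℝ)) lam N p u := by
  obtain ⟨d, hd, hpd⟩ := hK.pd
  obtain ⟨A, hA⟩ := Pool.Agent.MPad5d82.block_main (Matrix.of fun a b => (K a b : ℝ)) d hd hpd lam hlam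
    (fun _ => 0) (0, 0)
  obtain ⟨u, -, h2, h3, h4, h5, h6, -⟩ := hA (fun _ => -A) (fun _ => le_rfl)
  refine ⟨u, fun a => (h2 (fun _ => rfl) a).contDiffOn, h3, h4, ?_, h6⟩
  intro a φ hφ hc
  have e1 : ∑ j : Fin (N a), φ (p a j) = 0 := by
    have : IsEmpty (Fin (N a)) := by rw [hN a]; infer_instance
    exact Finset.sum_of_isEmpty _
  rw [e1, h5 a φ hφ hc]
  simp

end Pool.MP_ad5d82_an.Wl
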