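import Pool.Agent.Lib.MP_ad5d82_an.h24.Z.Z3
import Mathlib.Combinatorics.SimpleGraph.Connectivity.Connected

/-!
# Z4: gluing of the irreducible blocks
-/

set_option autoImplicit false

namespace Pool.MP_ad5d82_an.Wl

open Real Set MeasureTheory Filter Topology
open scoped ContDiff
open Pool.Agent.MPad5d82 (Lap NL r2)

variable {ι : Type} [Fintype ι] [DecidableEq ι]

/-- gluing of block solutions -/
theorem glue {κ : Type} [DecidableEq κ] (M : Matrix ι ι ℝ) (lam : ℝ) (N : ι → ℕ)
    (p : (a : ι) → Fin (N a) → ℝ × ℝ) (f : ι → κ) (hf : ∀ a b, M a b ≠ 0 → f a = f b)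
    (hs : ∀ c : κ, (∃ a, f a = c) → ∃ v : {b : ι // f b = c} → ℝ × ℝ → ℝ,
      IsSol (M.submatrix (Subtype.val : {b : ι // f b = c} → ι) Subtype.val) lam (fun b => N b.1)
        (fun b => p b.1) v) :
    ∃ u : ι → ℝ × ℝ → ℝ, IsSol M lam N p u := by
  classical
  have hex : ∀ c : κ, ∃ v : {b : ι // f b = c} → ℝ × ℝ → ℝ, (∃ a, f a = c) →
      IsSol (M.submatrix (Subtype.val : {b : ι // f b = c} → ι) Subtype.val) lam (fun b => N b.1)
        (fun b => p b.1) v := by
    intro c
    by_cases hc : ∃ a, f a = c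
    · obtain ⟨v, hv⟩ := hs c hc
      exact ⟨v, fun _ => hv⟩
    · exact ⟨fun _ _ => 0, fun h => absurd h hc⟩
  choose V hV using hex
  set u : ι → ℝ × ℝ → ℝ := fun a => V (f a) ⟨a, rfl⟩ with hu
  have huV : ∀ (c : κ) (b : ι) (h : f b = c), u b = V c ⟨b, h⟩ := by
    intro c b h
    subst h
    rfl
  have hNL : ∀ a x, NL M u a x = NL (M.submatrix Subtype.val Subtype.val) (V (f a)) ⟨a, rfl⟩ x := by
    intro a x
    have key : ∀ (a₀ : ι) (_ : f a₀ = f a) (g : ι → ℝ), (∀ b, M a₀ b = 0 → g b = 0) →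
        ∑ b, g b = ∑ b : {b : ι // f b = f a}, g b.1 := by
      intro a₀ h₀ g hg
      have e1 : ∑ b ∈ Finset.univ.filter (fun b => f b = f a), g b = ∑ b, g b := by
        refine Finset.sum_subset (Finset.filter_subset _ _) ?_
        intro b _ hb
        have hne : f b ≠ f a := by simpa using hb
        apply hg
        by_contra hM
        exact hne ((hf a₀ b hM).symm.trans h₀)
      rw [← e1]
      exact Finset.sum_subtype _ (fun b => by simp) g
    unfold NL
    have t1 : ∑ b, M a b * Real.exp (u b x) =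
        ∑ b : {b : ι // f b = f a}, M a b.1 * Real.exp (V (f a) b x) := by
      rw [key a rfl (fun b => M a b * Real.exp (u b x)) (fun b hb => by simp only [hb, zero_mul])]
      refine Finset.sum_congr rfl fun b _ => ?_
      rw [huV (f a) b.1 b.2]
    have t2 : ∑ b, ∑ c, M a b * Real.exp (u b x) * M b c * Real.exp (u c x) =
        ∑ b : {b : ι // f b = f a}, ∑ c : {b : ι // f b = f a},
          M a b.1 * Real.exp (V (f a) b x) * M b.1 c.1 * Real.exp (V (f a) c x) := by
      rw [key a rfl (fun b => ∑ c, M a b * Real.exp (u b x) * M b c * Real.exp (u c x))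
        (fun b hb => by simp only [hb, zero_mul, Finset.sum_const_zero])]
      refine Finset.sum_congr rfl fun b _ => ?_
      rw [key b.1 b.2 (fun c => M a b.1 * Real.exp (u b.1 x) * M b.1 c * Real.exp (u c x))
        (fun c hc => by simp only [hc, mul_zero, zero_mul])]
      refine Finset.sum_congr rfl fun c _ => ?_
      rw [huV (f a) b.1 b.2, huV (f a) c.1 c.2]
    rw [t1, t2]
    rfl
  refine ⟨u, ?_, ?_, ?_, ?_, ?_⟩
  · intro a
    refine ((hV (f a) ⟨a, rfl⟩).smooth ⟨a, rfl⟩).mono ?_
    intro x hx b j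
    exact hx b.1 j
  · intro a
    exact (hV (f a) ⟨a, rfl⟩).li ⟨a, rfl⟩
  · intro a
    have := (hV (f a) ⟨a, rfl⟩).li' ⟨a, rfl⟩
    simpa only [hNL] using this
  · intro a φ hφ hc
    have := (hV (f a) ⟨a, rfl⟩).eq ⟨a, rfl⟩ φ hφ hc
    simp only [hNL]
    exact this
  · intro a
    exact (hV (f a) ⟨a, rfl⟩).lim ⟨a, rfl⟩

/-- the graph of a Cartan matrix -/
def gr (K : Matrix ι ι ℤ) : SimpleGraph ι where
  Adj a b := a ≠ b ∧ (K a b ≠ 0 ∨ K b a ≠ 0)
  symm := ⟨fun _ _ h => ⟨h.1.symm, h.2.symm⟩⟩
  loopless := ⟨fun _ h => h.1 rfl⟩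

theorem ft_submatrix {K : Matrix ι ι ℤ} (hK : Eig.IsFT K) {α : Type} [Fintype α] [DecidableEq α]
    (g : α → ι) (hg : Function.Injective g) : Eig.IsFT (K.submatrix g g) := by
  obtain ⟨d, hd, hpd⟩ := hK.pd
  refine ⟨fun a => hK.diag _, fun a b hab => hK.off _ _ (fun h => hab (hg h)), fun a => d (g a),
    fun a => hd _, ?_⟩
  exact hpd.submatrix hg

theorem ft_zero_iff {K : Matrix ι ι ℤ} (hK : Eig.IsFT K) (a b : ι) (h : K a b ≠ 0) : K b a ≠ 0 := by
  obtain ⟨d, hd, hpd⟩ := hK.pd
  have h1 := hpd.1.apply a b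
  simp only [Matrix.of_apply, star_trivial] at h1
  intro h0
  rw [h0] at h1
  simp only [Int.cast_zero, mul_zero] at h1
  have h2 : (K a b : ℝ) = 0 := by
    rcases mul_eq_zero.mp h1.symm with h3 | h3
    · exact absurd h3 (hd a).ne'
    · exact h3
  exact h (by exact_mod_cast h2)

/-- **All finite type Cartan matrices.** -/
theorem all_planar (K : Matrix ι ι ℤ) (hK : Eig.IsFT K) (lam : ℝ) (hlam : 0 < lam) (N : ι → ℕ)
    (p : (a : ι) → Fin (N a) → ℝ × ℝ) :
    ∃ u : ι → ℝ × ℝ → ℝ, IsSol (Matrix.of fun a b => (K a b : ℝ)) lam N p u := by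
  classical
  set f : ι → (gr K).ConnectedComponent := (gr K).connectedComponentMk with hf
  refine glue (Matrix.of fun a b => (K a b : ℝ)) lam N p f ?_ ?_
  · intro a b hab
    by_cases h : a = b
    · rw [h]
    · apply SimpleGraph.ConnectedComponent.sound
      refine SimpleGraph.Adj.reachable ⟨h, Or.inl ?_⟩
      intro h0
      apply hab
      simp [h0]
  · intro c ⟨a₀, ha₀⟩
    have : Nonempty {b : ι // f b = c} := ⟨⟨a₀, ha₀⟩⟩
    have hK' : Eig.IsFT (K.submatrix (Subtype.val : {b : ι // f b = c} → ι) Subtype.val) :=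
      ft_submatrix hK _ Subtype.val_injective
    have hirr : Eig.Irred (K.submatrix (Subtype.val : {b : ι // f b = c} → ι) Subtype.val) := by
      intro s hs1 hs2
      by_contra hcon
      push Not at hcon
      obtain ⟨a, ha⟩ := hs1
      -- everything reachable from `a` inside stays in `s`
      have key : ∀ b : ι, (gr K).Reachable a.1 b → ∃ hb : f b = c, (⟨b, hb⟩ : {b : ι // f b = c}) ∈ s := by
        intro b hb
        obtain ⟨w⟩ := hb
        -- induct from the end
        have : ∀ (x y : ι) (w : (gr K).Walk x y), (∃ hx : f x = c, (⟨x, hx⟩ : {b : ι // f b = c}) ∈ s) →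
            ∃ hy : f y = c, (⟨y, hy⟩ : {b : ι // f b = c}) ∈ s := by
          intro x y w
          induction w with
          | nil => exact fun h => h
          | @cons x y z hadj w ih =>
            rintro ⟨hx, hxs⟩
            apply ih
            have hfy : f y = c := by
              rw [← hx]
              exact (SimpleGraph.ConnectedComponent.sound (SimpleGraph.Adj.reachable hadj)).symm
            refine ⟨hfy, ?_⟩
            by_contra hys
            have h1 := hcon ⟨x, hx⟩ hxs ⟨y, hfy⟩ hys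
            simp only [Matrix.submatrix_apply] at h1
            rcases hadj.2 with h2 | h2
            · exact h2 h1
            · exact (ft_zero_iff hK y x h2) h1
        exact this a.1 b w ⟨a.2, ha⟩
      apply hs2
      rw [Set.eq_univ_iff_forall]
      intro b
      have hr : (gr K).Reachable a.1 b.1 :=
        SimpleGraph.ConnectedComponent.exact (a.2.trans b.2.symm)
      obtain ⟨hb, hbs⟩ := key b.1 hr
      exact hbs
    have hMe : (Matrix.of fun a b => (K a b : ℝ)).submatrix (Subtype.val : {b : ι // f b = c} → ι)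
          (Subtype.val : {b : ι // f b = c} → ι)
        = Matrix.of fun (a b : {b : ι // f b = c}) => (((K.submatrix (Subtype.val : {b : ι // f b = c} → ι)
          (Subtype.val : {b : ι // f b = c} → ι)) a b : ℤ) : ℝ) := by
      ext a b
      rfl
    rw [hMe]
    by_cases hN : ∃ a : {b : ι // f b = c}, N a.1 ≠ 0
    · exact block_planar _ hK' hirr lam hlam (fun b => N b.1) hN (fun b => p b.1)
    · push Not at hN
      exact block_planar_zero _ hK' lam hlam (fun b => N b.1) hN (fun b => p b.1)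

theorem ft_transpose {K : Matrix ι ι ℤ} (hK : Eig.IsFT K) : Eig.IsFT K.transpose := by
  obtain ⟨d, hd, hpd⟩ := hK.pd
  refine ⟨fun a => hK.diag a, fun a b hab => hK.off b a (fun h => hab h.symm), fun a => (d a)⁻¹,
    fun a => inv_pos.mpr (hd a), ?_⟩
  exact Pool.Agent.MPad5d82.posDef_transpose (Matrix.of fun a b => (K a b : ℝ)) d hd hpd

end Pool.MP_ad5d82_an.Wl
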